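import Pool.Agent.Y916.Af.Stm

/-!
# Project AF (helper916), job AF/RK: the rank of specialisations of G-functions at several points
-/

set_option autoImplicit false

open AlgebraicIndependent

namespace Pool.Agent.Y356.AF

section
variable {R F Ω : Type} [CommRing R] [Field F] [Field Ω] [Algebra F Ω] [Algebra R Ω]

/-- algebraic elements over a ring whose elements are algebraic over `F` -/
theorem mem_closure_of_alg (hRF : ∀ c : R, IsAlgebraic F (algebraMap R Ω c)) {T : Set Ω} {a : Ω}
    (ha : IsAlgebraic (Algebra.adjoin R T) a) : a ∈ (matroid F Ω).closure T := by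
  obtain ⟨L, hL, hcl⟩ := matroid_isFlat_iff.1 ((matroid F Ω).isFlat_closure T)
  have hsub : ∀ x ∈ Algebra.adjoin R T, x ∈ L := by
    intro x hx
    induction hx using Algebra.adjoin_induction with
    | mem x hx =>
      show x ∈ (L : Set Ω)
      rw [hL]
      exact (matroid F Ω).mem_closure_of_mem' hx (Set.mem_univ _)
    | algebraMap c =>
      show _ ∈ (L : Set Ω)
      rw [hL]
      exact hcl _ ((hRF c).extendScalars (algebraMap F L).injective)
    | add x y _ _ hx hy => exact L.add_mem hx hy
    | mul x y _ _ hx hy => exact L.mul_mem hx hy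
  apply hcl
  obtain ⟨p, hp0, hp⟩ := ha
  let ι : Algebra.adjoin R T →+* L :=
    { toFun := fun x => ⟨x, hsub x x.2⟩
      map_one' := rfl
      map_mul' := fun _ _ => rfl
      map_zero' := rfl
      map_add' := fun _ _ => rfl }
  have hι : Function.Injective ι := by
    intro x y hxy
    exact Subtype.ext (congrArg (fun w : L => (w : Ω)) hxy)
  refine ⟨p.map ι, (Polynomial.map_ne_zero_iff hι).2 hp0, ?_⟩
  rw [Polynomial.aeval_def, Polynomial.eval₂_map]
  exact hp

/-- independence over `F` implies independence over `R` -/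
theorem ind_of_ind [FaithfulSMul R Ω] (hRF : ∀ c : R, IsAlgebraic F (algebraMap R Ω c)) {B : Set Ω}
    (hB : (matroid F Ω).Indep B) : (matroid R Ω).Indep B := by
  rw [Matroid.indep_iff_forall_notMem_closure_sdiff (Set.subset_univ _)] at hB ⊢
  intro e he h
  apply hB he
  rw [matroid_closure_eq] at h
  exact mem_closure_of_alg hRF ((Subalgebra.mem_algebraicClosure _ _).1 h)

end

section
variable {R S Ω : Type} [CommRing R] [IsDomain R] [CommRing S] [IsDomain S] [Algebra R S]
  [FaithfulSMul R S] [Field Ω] [Algebra R Ω] [FaithfulSMul R Ω]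

/-- a specialisation which keeps a transcendence basis independent is injective -/
theorem inj_of_basis {ι : Type} (φ : S →ₐ[R] Ω) (y : ι → S) (hy : IsTranscendenceBasis R y)
    (hφ : AlgebraicIndependent R (φ ∘ y)) : Function.Injective φ := by
  rw [injective_iff_map_eq_zero]
  intro a ha
  by_contra h0
  have hy' := hy.isAlgebraic
  have h1 : IsAlgebraic (Algebra.adjoin R (Set.range y)) a := hy'.isAlgebraic a
  obtain ⟨q, hq0, b, hb⟩ := h1.exists_nonzero_dvd (mem_nonZeroDivisors_of_ne_zero h0)
  have hq : (q : S) ∈ (MvPolynomial.aeval y : MvPolynomial ι R →ₐ[R] S).range := by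
    rw [← Algebra.adjoin_range_eq_range_aeval]
    exact q.2
  obtain ⟨P, hP⟩ := hq
  have hP : MvPolynomial.aeval y P = (q : S) := hP
  have h2 : φ (q : S) = 0 := by
    have h3 : (q : S) = a * b := hb
    rw [h3, map_mul, ha, zero_mul]
  have h3 : MvPolynomial.aeval (φ ∘ y) P = 0 := by
    rw [← h2, ← hP]
    exact (MvPolynomial.comp_aeval_apply (f := y) φ P).symm
  have h4 : P = 0 := hφ.eq_zero_of_aeval_eq_zero _ h3
  rw [h4, map_zero] at hP
  exact hq0 (Subtype.ext hP.symm)

/-- one point, in terms of the ring of functions -/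
theorem one_point' {F : Type} [Field F] [Algebra F Ω]
    (hRF : ∀ c : R, IsAlgebraic F (algebraMap R Ω c)) (φ : S →ₐ[R] Ω) {r : ℕ} (g : Fin r → S)
    (hg : Algebra.adjoin R (Set.range g) = ⊤) (I : Finset (Fin r))
    (hI : AlgebraicIndependent R (fun i : I => g i))
    (hI2 : ∀ s ∉ I, ¬ AlgebraicIndependent R (fun o : Option I => o.elim (g s) fun i => g i)) :
    (matroid F Ω).eRk (Set.range (φ ∘ g)) ≤ I.card ∧
      ((matroid F Ω).eRk (Set.range (φ ∘ g)) = I.card →
        ∀ s, φ (g s) ∈ (matroid F Ω).closure ((φ ∘ g) '' I)) := by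
  have hT : IsTranscendenceBasis R (fun i : I => g i) := by
    refine hI.isTranscendenceBasis_iff_isAlgebraic.2 ⟨fun a => ?_⟩
    have ha : IsAlgebraic (Algebra.adjoin R (Set.range g)) a :=
      isAlgebraic_algebraMap (⟨a, by rw [hg]; trivial⟩ : Algebra.adjoin R (Set.range g))
    refine ha.adjoin_of_forall_isAlgebraic ?_
    rintro _ ⟨⟨s, rfl⟩, hs⟩
    have hsI : s ∉ I := fun h => hs ⟨⟨s, h⟩, rfl⟩
    have h1 := hI2 s hsI
    rw [hI.option_iff_transcendental] at h1
    exact not_not.1 h1
  obtain ⟨B, hB⟩ := (matroid F Ω).exists_isBasis (Set.range (φ ∘ g)) (Set.subset_univ _)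
  rw [hB.eRk_eq_encard]
  have hBfin : B.Finite := (Set.finite_range _).subset hB.subset
  lift B to Finset Ω using hBfin
  have hj : ∀ b : (B : Set Ω), ∃ j, φ (g j) = b := fun b => hB.subset b.2
  choose j hj using hj
  have hBR : AlgebraicIndependent R (fun b : (B : Set Ω) => (b : Ω)) :=
    matroid_indep_iff.1 (ind_of_ind hRF hB.indep)
  have hBR' : AlgebraicIndependent R (φ ∘ fun b : (B : Set Ω) => g (j b)) := by
    have e : (φ ∘ fun b : (B : Set Ω) => g (j b)) = fun b : (B : Set Ω) => (b : Ω) := by
      funext b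
      exact hj b
    rw [e]
    exact hBR
  have hy : AlgebraicIndependent R (fun b : (B : Set Ω) => g (j b)) := hBR'.of_comp φ
  have hc1 := hy.cardinalMk_le_trdeg
  have hc2 := hT.cardinalMk_eq_trdeg
  have e1 : Cardinal.mk (B : Set Ω) = (B.card : Cardinal) := by simp
  have e2 : Cardinal.mk I = (I.card : Cardinal) := by simp
  rw [Set.encard_coe_eq_coe_finsetCard]
  refine ⟨?_, fun hcard => ?_⟩
  · rw [← hc2, e1, e2] at hc1
    exact_mod_cast hc1
  · have hcard' : B.card = I.card := by exact_mod_cast hcard
    have hyT : IsTranscendenceBasis R (fun b : (B : Set Ω) => g (j b)) := by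
      refine isTranscendenceBasis_of_trdeg_le_of_finite hy ?_
      rw [← hc2, e1, e2, hcard']
    have hinj := inj_of_basis φ _ hyT hBR'
    have hvI : AlgebraicIndependent R (fun i : I => φ (g i)) := hI.map' hinj
    intro s
    by_cases hs : s ∈ I
    · exact (matroid F Ω).mem_closure_of_mem' ⟨s, hs, rfl⟩ (Set.mem_univ _)
    · have h1 : IsAlgebraic (Algebra.adjoin R (Set.range fun i : I => φ (g i))) (φ (g s)) := by
        by_contra h2
        have h3 := (hvI.option_iff_transcendental (φ (g s))).2 h2
        apply hI2 s hs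
        refine AlgebraicIndependent.of_comp φ ?_
        convert h3 using 1
        funext o
        cases o <;> rfl
      have h2 := mem_closure_of_alg hRF h1
      convert h2 using 2
      ext w
      simp

end

/-- one point -/
theorem one_point {R A F Ω : Type} [CommRing R] [IsDomain R] [CommRing A] [IsDomain A] [Algebra R A]
    [FaithfulSMul R A] [Field F] [Field Ω] [Algebra F Ω] [Algebra R Ω] [FaithfulSMul R Ω]
    (hRF : ∀ c : R, IsAlgebraic F (algebraMap R Ω c)) {r : ℕ} (h : Fin r → A) (I : Finset (Fin r))
    (hI : AlgebraicIndependent R (fun i : I => h i))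
    (hI2 : ∀ s ∉ I, ¬ AlgebraicIndependent R (fun o : Option I => o.elim (h s) fun i => h i))
    (v : Fin r → Ω)
    (hv : ∀ P : MvPolynomial (Fin r) R, MvPolynomial.aeval h P = 0 → MvPolynomial.aeval v P = 0) :
    (matroid F Ω).eRk (Set.range v) ≤ I.card ∧
      ((matroid F Ω).eRk (Set.range v) = I.card → ∀ s, v s ∈ (matroid F Ω).closure (v '' I)) := by
  let f : MvPolynomial (Fin r) R →ₐ[R] A := MvPolynomial.aeval h
  let S := MvPolynomial (Fin r) R ⧸ RingHom.ker f
  let ψ : S →ₐ[R] A := Ideal.kerLiftAlg f
  have hψ : Function.Injective ψ := Ideal.kerLiftAlg_injective f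
  let φ : S →ₐ[R] Ω := Ideal.Quotient.liftₐ (RingHom.ker f) (MvPolynomial.aeval v) (fun P hP => hv P hP)
  let g : Fin r → S := fun j => Ideal.Quotient.mkₐ R (RingHom.ker f) (MvPolynomial.X j)
  have hψg : ∀ j, ψ (g j) = h j := fun j => by
    show f (MvPolynomial.X j) = h j
    exact MvPolynomial.aeval_X _ _
  have hφg : ∀ j, φ (g j) = v j := fun j => by
    show MvPolynomial.aeval v (MvPolynomial.X j) = v j
    exact MvPolynomial.aeval_X _ _
  have : IsDomain S := hψ.isDomain ψ.toRingHom
  have : FaithfulSMul R S := by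
    rw [faithfulSMul_iff_algebraMap_injective]
    intro c c' hc
    have h1 := congrArg ψ hc
    rw [AlgHom.commutes, AlgHom.commutes] at h1
    exact (FaithfulSMul.algebraMap_injective R A) h1
  have hg : Algebra.adjoin R (Set.range g) = ⊤ := by
    rw [Algebra.adjoin_range_eq_range_aeval]
    have e : (MvPolynomial.aeval g : MvPolynomial (Fin r) R →ₐ[R] S) =
        Ideal.Quotient.mkₐ R (RingHom.ker f) := by
      ext j
      rw [MvPolynomial.aeval_X]
    rw [e]
    exact (AlgHom.range_eq_top _).2 (Ideal.Quotient.mkₐ_surjective R _)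
  have hI' : AlgebraicIndependent R (fun i : I => g i) := by
    refine AlgebraicIndependent.of_comp ψ ?_
    convert hI using 1
    funext i
    exact hψg i
  have hI2' : ∀ s ∉ I, ¬ AlgebraicIndependent R (fun o : Option I => o.elim (g s) fun i => g i) := by
    intro s hs h1
    apply hI2 s hs
    have h2 := h1.map' hψ
    convert h2 using 1
    funext o
    cases o
    · exact (hψg s).symm
    · exact (hψg _).symm
  have key := one_point' hRF φ g hg I hI' hI2'
  have e : φ ∘ g = v := funext hφg
  rw [e] at key
  refine ⟨key.1, fun h1 s => ?_⟩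
  have h2 := key.2 h1 s
  rw [hφg] at h2
  exact h2

/-- a finite family of full rank is independent -/
theorem ind_of_rank {F Ω κ : Type} [Field F] [Field Ω] [Algebra F Ω] [Fintype κ] (f : κ → Ω)
    (h : (Fintype.card κ : ℕ∞) ≤ (matroid F Ω).eRk (Set.range f)) : AlgebraicIndependent F f := by
  classical
  have h1 : (Set.range f).encard ≤ Fintype.card κ := by
    rw [← Set.image_univ]
    refine (Set.encard_image_le _ _).trans ?_
    rw [Set.encard_univ, ENat.card_eq_coe_fintype_card]
  have h2 : (matroid F Ω).eRk (Set.range f) ≤ (Set.range f).encard := Matroid.eRk_le_encard _ _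
  have h3 : (Set.range f).encard = Fintype.card κ := le_antisymm h1 (h.trans h2)
  have h4 : (matroid F Ω).eRk (Set.range f) = (Set.range f).encard :=
    le_antisymm h2 (h1.trans h)
  have h5 : (matroid F Ω).Indep (Set.range f) :=
    (Matroid.indep_iff_eRk_eq_encard_of_finite (Set.finite_range f)).2 h4
  have hinj : Function.Injective f := by
    rw [← Set.injOn_univ]
    refine Set.Finite.injOn_of_encard_image_eq Set.finite_univ ?_
    rw [Set.image_univ, h3, Set.encard_univ, ENat.card_eq_coe_fintype_card]
  rw [matroid_indep_iff] at h5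
  exact (algebraicIndependent_subtype_range hinj).1 h5

theorem t_rk : Pool.Agent.Y916.Af.S_rk := by
  classical
  intro r h I hFree F Ω _ _ _ _ N x z hx hx0 hrel hdep
  have key : ∀ l, (matroid F Ω).eRk (Set.range fun j => z l (some j)) ≤ I.card ∧
      ((matroid F Ω).eRk (Set.range fun j => z l (some j)) = I.card →
        ∀ s, z l (some s) ∈ (matroid F Ω).closure ((fun j => z l (some j)) '' I)) := by
    intro l
    let _ : Algebra (Polynomial ℚ) Ω := (Polynomial.aeval (x l) : Polynomial ℚ →ₐ[ℚ] Ω).toRingHom.toAlgebra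
    have : FaithfulSMul (Polynomial ℚ) Ω := (faithfulSMul_iff_algebraMap_injective _ _).2
      ((injective_iff_map_eq_zero _).2 fun c hc => by_contra fun h0 => hx0 l c h0 hc)
    have : FaithfulSMul (Polynomial ℚ) (PowerSeries ℚ) :=
      (faithfulSMul_iff_algebraMap_injective _ _).2 (Polynomial.coe_injective ℚ)
    refine one_point (R := Polynomial ℚ) (A := PowerSeries ℚ) (F := F) ?_ h I hFree.1 hFree.2 _
      (fun P hP => hrel l P hP)
    intro c
    show IsAlgebraic F (Polynomial.aeval (x l) c)
    have hchar : CharZero Ω := algebraRat.charZero Ω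
    have hcharF : CharZero F := (algebraMap F Ω).charZero
    induction c using Polynomial.induction_on' with
    | add p q hp hq =>
      rw [map_add]
      exact hp.add hq
    | monomial n q =>
      rw [Polynomial.aeval_monomial]
      refine IsAlgebraic.mul ?_ ((hx l).pow n)
      have e : algebraMap ℚ Ω q = algebraMap F Ω (q : F) := by
        rw [map_ratCast, eq_ratCast]
      rw [e]
      exact isAlgebraic_algebraMap _
  by_contra hcon
  rw [not_lt] at hcon
  -- the sum of the ranks
  have hsum : ∀ L : Finset (Fin N), (matroid F Ω).eRk (⋃ l ∈ L, Set.range (z l)) ≤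
      ∑ l ∈ L, (1 + (matroid F Ω).eRk (Set.range fun j => z l (some j))) := by
    intro L
    induction L using Finset.induction_on with
    | empty => simp
    | insert l L hl ih =>
      rw [Finset.sum_insert hl, Finset.set_biUnion_insert]
      refine (Matroid.eRk_union_le_eRk_add_eRk _ _ _).trans (add_le_add ?_ ih)
      have e : Set.range (z l) = {z l none} ∪ Set.range fun j => z l (some j) := by
        ext w
        simp only [Set.mem_range, Set.mem_union, Set.mem_singleton_iff]
        constructor
        · rintro ⟨o, rfl⟩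
          cases o with
          | none => exact Or.inl rfl
          | some j => exact Or.inr ⟨j, rfl⟩
        · rintro (rfl | ⟨j, rfl⟩)
          · exact ⟨none, rfl⟩
          · exact ⟨some j, rfl⟩
      rw [e]
      refine (Matroid.eRk_union_le_eRk_add_eRk _ _ _).trans (add_le_add ?_ le_rfl)
      refine (Matroid.eRk_le_encard _ _).trans ?_
      rw [Set.encard_singleton]
  have hall : (Set.range fun p : Fin N × Option (Fin r) => z p.1 p.2) =
      ⋃ l ∈ (Finset.univ : Finset (Fin N)), Set.range (z l) := by
    ext w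
    simp only [Set.mem_range, Set.mem_iUnion, Finset.mem_univ, exists_prop, true_and, Prod.exists]
  have htot := hsum Finset.univ
  rw [← hall] at htot
  -- natural numbers
  have hnat : ∀ l, ∃ n : ℕ, (matroid F Ω).eRk (Set.range fun j => z l (some j)) = n ∧ n ≤ I.card := by
    intro l
    obtain ⟨n, hn⟩ := ENat.ne_top_iff_exists.1 (ne_top_of_le_ne_top (ENat.natCast_ne_top _) (key l).1)
    refine ⟨n, hn.symm, ?_⟩
    have := (key l).1
    rw [← hn] at this
    exact_mod_cast this
  choose n hn hnI using hnat
  have hle : N * (I.card + 1) ≤ ∑ l : Fin N, (1 + n l) := by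
    have h1 := hcon.trans htot
    simp only [hn] at h1
    exact_mod_cast h1
  have hneq : ∀ l, n l = I.card := by
    have h2 : ∑ l : Fin N, (1 + n l) ≤ ∑ l : Fin N, (1 + I.card) :=
      Finset.sum_le_sum fun l _ => Nat.add_le_add_left (hnI l) 1
    have h3 : ∑ l : Fin N, (1 + I.card) = N * (I.card + 1) := by
      rw [Finset.sum_const, Finset.card_univ, Fintype.card_fin, smul_eq_mul, add_comm 1]
    have h4 : ∑ l : Fin N, (1 + n l) = ∑ l : Fin N, (1 + I.card) := le_antisymm h2 (by rw [h3]; exact hle)
    have h5 := (Finset.sum_eq_sum_iff_of_le (fun l _ => Nat.add_le_add_left (hnI l) 1)).1 h4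
    intro l
    have := h5 l (Finset.mem_univ l)
    omega
  -- everything is in the closure of the free coordinates
  apply hdep
  refine ind_of_rank _ ?_
  have hcl : (Set.range fun p : Fin N × Option (Fin r) => z p.1 p.2) ⊆
      (matroid F Ω).closure (Set.range fun p : Fin N × Option I => z p.1 (p.2.map Subtype.val)) := by
    rintro _ ⟨⟨l, o⟩, rfl⟩
    cases o with
    | none =>
      refine (matroid F Ω).mem_closure_of_mem' ⟨(l, none), rfl⟩ (Set.mem_univ _)
    | some s =>
      have h1 := (key l).2 (by rw [hn l, hneq l]) s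
      refine (matroid F Ω).closure_subset_closure ?_ h1
      rintro _ ⟨i, hi, rfl⟩
      exact ⟨(l, some ⟨i, hi⟩), rfl⟩
  have h1 := (matroid F Ω).eRk_mono hcl
  rw [Matroid.eRk_closure_eq] at h1
  refine le_trans ?_ (hcon.trans h1)
  rw [Fintype.card_prod, Fintype.card_fin, Fintype.card_option, Fintype.card_coe]

end Pool.Agent.Y356.AF
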